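import Pool.Agent.Helper99.WP.GoalsK

/-! Packet WP CZS (MP_f41a60_pr, helper99): one Calderon-Zygmund step. -/

set_option autoImplicit false

namespace Pool.Agent.Helper50.WP

open Finset
open Pool.Agent.Helper99.WP Pool.Agent.Helper99.ERW

variable {d : ℕ}

/-- the shifts of the children of a cube -/
def Vs (d : ℕ) : Finset (Fin d → ℤ) := Fintype.piFinset fun _ => {-1, 0, 1}

/-- the centre of the child with the shift `v` -/
def ct (R : ℕ) (y : Site d) (v : Fin d → ℤ) : Site d := fun l => y l + (2 * (R : ℤ) + 1) * v l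

theorem mem_Vs {v : Fin d → ℤ} : v ∈ Vs d ↔ ∀ l, v l = -1 ∨ v l = 0 ∨ v l = 1 := by
  simp [Vs, Fintype.mem_piFinset]

theorem exists_child (hQ : QQQ_stmt) {R : ℕ} {y z : Site d} (hz : z ∈ Q (3 * R + 1) y) :
    ∃ v ∈ Vs d, z ∈ Q R (ct R y v) := by
  obtain ⟨q1, -⟩ := hQ d
  have h := (q1 _ _ _).1 hz
  refine ⟨fun l => if z l - y l < -(R : ℤ) then -1 else if (R : ℤ) < z l - y l then 1 else 0,
    mem_Vs.2 fun l => ?_, (q1 _ _ _).2 fun l => ?_⟩
  · split_ifs <;> simp
  · have hl := abs_le.1 (h l)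
    push_cast at hl
    rw [abs_le]
    change -(R : ℤ) ≤ z l - (y l + (2 * (R : ℤ) + 1) * (if z l - y l < -(R : ℤ) then -1 else
      if (R : ℤ) < z l - y l then 1 else 0)) ∧ z l - (y l + (2 * (R : ℤ) + 1) *
      (if z l - y l < -(R : ℤ) then -1 else if (R : ℤ) < z l - y l then 1 else 0)) ≤ (R : ℤ)
    split_ifs with h1 h2
    · constructor <;> linarith [hl.1, hl.2]
    · constructor <;> linarith [hl.1, hl.2]
    · constructor <;> linarith [hl.1, hl.2]

theorem child_unique (hQ : QQQ_stmt) {R : ℕ} {y z : Site d} {v v' : Fin d → ℤ} (hv : v ∈ Vs d)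
    (hv' : v' ∈ Vs d) (h : z ∈ Q R (ct R y v)) (h' : z ∈ Q R (ct R y v')) : v = v' := by
  obtain ⟨q1, -⟩ := hQ d
  have h1 := (q1 _ _ _).1 h
  have h2 := (q1 _ _ _).1 h'
  funext l
  have e1 := abs_le.1 (h1 l)
  have e2 := abs_le.1 (h2 l)
  unfold ct at e1 e2
  rcases mem_Vs.1 hv l with a | a | a <;> rcases mem_Vs.1 hv' l with b | b | b <;>
    rw [a] at e1 <;> rw [b] at e2 <;> rw [a, b] <;>
    (exfalso; linarith [e1.1, e1.2, e2.1, e2.2])

theorem ct_mem (hQ : QQQ_stmt) (R : ℕ) (y : Site d) {v : Fin d → ℤ} (hv : v ∈ Vs d) :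
    ct R y v ∈ Q (2 * R + 1) y := by
  obtain ⟨q1, -⟩ := hQ d
  refine (q1 _ _ _).2 fun l => ?_
  unfold ct
  push_cast
  rw [abs_le]
  rcases mem_Vs.1 hv l with a | a | a <;> rw [a] <;> constructor <;> linarith [Nat.zero_le R]

theorem CZS (hGCM : GCM_stmt) (hQQQ : QQQ_stmt) (hEXT : EXT_stmt)
    (hCMP : CMP_stmt) : CZS_stmt := by
  classical
  intro d κ hκ
  obtain ⟨K, δ, c, hδ0, hδ1, hc0, hc1, hcmp⟩ := hCMP d κ hκ
  obtain ⟨q1, q2, q3, q4, q5, q6⟩ := hQQQ d
  refine ⟨K + 3, δ, c / 2, hδ0, hδ1, by linarith, by linarith, ?_⟩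
  intro p hp
  -- rules
  have hnn : ∀ (D B : Finset (Site d)) (z : Site d), 0 ≤ Gr p D (ind B) z := by
    intro D B z
    refine (hGCM d κ p hκ hp D).2.2.2.1 _ (fun x _ => ?_) z
    unfold ind
    split_ifs <;> norm_num
  have hhalf : ∀ (D A B : Finset (Site d)) (z : Site d),
      c * Gr p D (ind B) z ≤ Gr p D (ind A) z → c / 2 * Gr p D (ind B) z ≤ Gr p D (ind A) z := by
    intro D A B z h
    have := mul_nonneg hc0.le (hnn D B z)
    linarith
  have hadd : ∀ (D : Finset (Site d)) (z : Site d) (S : Finset (Fin d → ℤ))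
      (f : (Fin d → ℤ) → Finset (Site d)), (∀ v ∈ S, ∀ w ∈ S, v ≠ w → Disjoint (f v) (f w)) →
      Gr p D (ind (S.biUnion f)) z = ∑ v ∈ S, Gr p D (ind (f v)) z := by
    intro D z S f hf
    have h7 := (hGCM d κ p hκ hp D).2.2.2.2.2.2
    rw [h7, Finset.sum_biUnion (fun v hv w hw hvw => hf v hv w hw hvw)]
    exact Finset.sum_congr rfl fun v _ => (h7 _ _).symm
  have hKs : ∀ (r : ℕ) (y : Site d), Q (K * (r + 1)) y ⊆ Q ((K + 3) * (r + 1)) y :=
    fun r y => q6 _ _ _ (Nat.mul_le_mul_right _ (by omega))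
  have ha : ∀ (j : ℕ) (y : Site d) (D A : Finset (Site d)),
      Q ((K + 3) * (rr j + 1)) y ⊆ D → A ⊆ Q (rr j) y →
      (A.card : ℝ) ≤ δ * (Q (rr j) y).card →
      ∃ B : Finset (Site d), B ⊆ Q (rr j) y ∧ (A.card : ℝ) ≤ δ * B.card ∧
        ∀ z, c * Gr p D (ind B) z ≤ Gr p D (ind A) z := by
    intro j
    induction j with
    | zero =>
      intro y D A hD hA hcard
      have e1 : (Q (rr 0) y).card = 1 := by
        rw [q2]
        simp [rr]
      rw [e1] at hcard
      have e2 : A.card = 0 := by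
        by_contra h
        have : (1 : ℝ) ≤ A.card := by exact_mod_cast Nat.one_le_iff_ne_zero.2 h
        push_cast at hcard
        linarith
      rw [Finset.card_eq_zero] at e2
      subst e2
      refine ⟨∅, by simp, by simp, fun z => ?_⟩
      have := hnn D ∅ z
      nlinarith
    | succ j ih =>
      intro y D A hD hA hcard
      obtain ⟨R, hR⟩ : ∃ R, R = rr j := ⟨_, rfl⟩
      have hrr : rr (j + 1) = 3 * R + 1 := by rw [hR]; rfl
      rw [← hR] at ih
      rw [hrr] at hD hA hcard ⊢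
      have hKD : Q (K * (R + 1)) y ⊆ D := by
        refine (q6 _ _ _ ?_).trans hD
        exact Nat.mul_le_mul (by omega) (by omega)
      have hchD : ∀ v ∈ Vs d, Q ((K + 3) * (R + 1)) (ct R y v) ⊆ D := by
        intro v hv
        refine (q5 _ _ _ _ (ct_mem hQQQ R y hv)).trans ((q6 _ _ _ ?_).trans hD)
        have : (K + 3) * (3 * R + 1 + 1) = (K + 3) * (R + 1) + (K + 3) * (2 * R + 1) := by ring
        rw [this]
        refine Nat.add_le_add_left ?_ _
        exact Nat.le_mul_of_pos_left _ (by omega)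
      have hchs : ∀ v ∈ Vs d, Q R (ct R y v) ⊆ Q (3 * R + 1) y := by
        intro v hv
        refine (q5 _ _ _ _ (ct_mem hQQQ R y hv)).trans (q6 _ _ _ ?_)
        omega
      by_cases hex : ∃ v ∈ Vs d,
          δ * (Q R (ct R y v)).card < ((A ∩ Q R (ct R y v)).card : ℝ)
      · obtain ⟨v, hv, hlt⟩ := hex
        refine ⟨Q (3 * R + 1) y, subset_rfl, hcard, fun z => ?_⟩
        have e1 := hcmp p hp D A R y (ct R y v) (hchs v hv) hKD hlt z
        rw [Finset.inter_eq_left.2 hA] at e1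
        exact e1
      · push Not at hex
        have hih : ∀ v ∈ Vs d, ∃ B : Finset (Site d), B ⊆ Q R (ct R y v) ∧
            ((A ∩ Q R (ct R y v)).card : ℝ) ≤ δ * B.card ∧
            ∀ z, c * Gr p D (ind B) z ≤ Gr p D (ind (A ∩ Q R (ct R y v))) z := by
          intro v hv
          exact ih (ct R y v) D (A ∩ Q R (ct R y v)) (hchD v hv) Finset.inter_subset_right
            (hex v hv)
        choose! B hB1 hB2 hB3 using hih
        have hdA : ∀ v ∈ Vs d, ∀ w ∈ Vs d, v ≠ w →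
            Disjoint (A ∩ Q R (ct R y v)) (A ∩ Q R (ct R y w)) := by
          intro v hv w hw hvw
          rw [Finset.disjoint_left]
          intro z hz hz'
          exact hvw (child_unique hQQQ hv hw (Finset.mem_inter.1 hz).2 (Finset.mem_inter.1 hz').2)
        have hdB : ∀ v ∈ Vs d, ∀ w ∈ Vs d, v ≠ w → Disjoint (B v) (B w) := by
          intro v hv w hw hvw
          rw [Finset.disjoint_left]
          intro z hz hz'
          exact hvw (child_unique hQQQ hv hw (hB1 v hv hz) (hB1 w hw hz'))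
        have hAu : (Vs d).biUnion (fun v => A ∩ Q R (ct R y v)) = A := by
          ext z
          simp only [Finset.mem_biUnion, Finset.mem_inter]
          constructor
          · rintro ⟨v, -, hz, -⟩
            exact hz
          · intro hz
            obtain ⟨v, hv, hzv⟩ := exists_child hQQQ (hA hz)
            exact ⟨v, hv, hz, hzv⟩
        refine ⟨(Vs d).biUnion B, ?_, ?_, fun z => ?_⟩
        · intro z hz
          obtain ⟨v, hv, hz'⟩ := Finset.mem_biUnion.1 hz
          exact hchs v hv (hB1 v hv hz')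
        · rw [Finset.card_biUnion (fun v hv w hw hvw => hdB v hv w hw hvw)]
          have e1 : (A.card : ℝ) = ∑ v ∈ Vs d, ((A ∩ Q R (ct R y v)).card : ℝ) := by
            have e2 : A.card = ((Vs d).biUnion (fun v => A ∩ Q R (ct R y v))).card := by
              rw [hAu]
            rw [e2, Finset.card_biUnion (fun v hv w hw hvw => hdA v hv w hw hvw)]
            push_cast
            rfl
          rw [e1]
          push_cast
          rw [Finset.mul_sum]
          exact Finset.sum_le_sum hB2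
        · have e1 : Gr p D (ind A) z = ∑ v ∈ Vs d, Gr p D (ind (A ∩ Q R (ct R y v))) z := by
            rw [← hadd D z (Vs d) (fun v => A ∩ Q R (ct R y v)) hdA, hAu]
          rw [e1, hadd D z (Vs d) B hdB, Finset.mul_sum]
          exact Finset.sum_le_sum fun v hv => hB3 v hv z
  intro j y D A hD hA
  refine ⟨fun hcard => ?_, fun hcard z hz => ?_⟩
  · obtain ⟨B, hB1, hB2, hB3⟩ := ha j y D A hD hA hcard
    exact ⟨B, hB1, hB2, fun z => hhalf D A B z (hB3 z)⟩
  · obtain ⟨r, hr⟩ : ∃ r, r = rr j := ⟨_, rfl⟩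
    rw [← hr] at hD hA hcard hz ⊢
    have e1 := hcmp p hp D A r y y (q6 _ _ _ (by omega)) ((hKs r y).trans hD)
      (by rw [Finset.inter_eq_left.2 hA]; exact hcard) z
    have hA' : A ⊆ Q (3 * r + 1) y := hA.trans (q6 _ _ _ (by omega))
    rw [Finset.inter_eq_left.2 hA'] at e1
    have hsub1 : Q (2 * r + 1) z ⊆ Q (3 * r + 1) y := by
      refine (q5 _ _ _ _ hz).trans (q6 _ _ _ (by omega))
    have hsub2 : Q (3 * r + 1) y ⊆ D := by
      refine (q6 _ _ _ ?_).trans hD
      have : (K + 3) * (r + 1) = K * (r + 1) + (3 * r + 3) := by ring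
      rw [this]
      omega
    have e2 := (hGCM d κ p hκ hp (Q (2 * r + 1) z)).2.2.2.2.2.1 D (hsub1.trans hsub2)
      (ind (Q (3 * r + 1) y)) (fun x _ => by unfold ind; split_ifs <;> norm_num) z
    have e3 := (hGCM d κ p hκ hp (Q (2 * r + 1) z)).2.2.1 (fun _ => 1)
      (ind (Q (3 * r + 1) y)) (fun x hx => by
        unfold ind
        rw [if_pos (hsub1 hx)]) z
    have hzz : z ∈ Q (2 * r + 1) z := (q1 _ _ _).2 fun l => by
      rw [sub_self, abs_zero]
      positivity
    have e4 := (hEXT d κ p hκ hp (2 * r + 1) z).2 z hzz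
    have e5 : (((2 * r + 1 : ℕ) : ℝ) + 1) ^ 2 ≤ Gr p (Q (2 * r + 1) z) (fun _ => 1) z := by
      refine le_trans (le_of_eq ?_) e4
      simp
    have e6 : ((r : ℝ) + 1) ^ 2 ≤ (((2 * r + 1 : ℕ) : ℝ) + 1) ^ 2 := by
      push_cast
      nlinarith [(Nat.cast_nonneg r : (0 : ℝ) ≤ r)]
    have e7 : ((r : ℝ) + 1) ^ 2 ≤ Gr p D (ind (Q (3 * r + 1) y)) z := by linarith
    have e8 : c / 2 * ((r : ℝ) + 1) ^ 2 ≤ c * Gr p D (ind (Q (3 * r + 1) y)) z := by
      have h0 : (0 : ℝ) ≤ ((r : ℝ) + 1) ^ 2 := by positivity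
      nlinarith
    linarith

end Pool.Agent.Helper50.WP
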